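import Pool.Agent.V1146.Chern.Hm

/-!
# Q1: Chernoff's factor function is not in `log(HM_∞)`

Let `g : ℝ → (0,∞)` be continuous and integrable with
`∫ e^{iλs} g(s) ds = 2^{1/3} / Ai(i 2^{-1/3} λ)` for all real `λ`. Then `x ↦ g(log x)/x` is not
hyperbolically completely monotone on `(0,∞)`.

Proof. If it were, `g(a+t) g(a-t)` would be decreasing and convex in `w = 2 cosh t`. The first
property gives log-concavity, so `M(w) = ∫ e^{ws} g(s) ds` is analytic in a strip
`-θ < Re w < δ`, with `M(w) Ai(2^{-1/3} w) = 2^{1/3}` there, where `-2^{-1/3} θ` is the first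
negative zero of `Ai`, and `f(s) = e^{-θs} g(s)` is nonincreasing with a finite limit at `-∞`.
The convexity gives `f(s) - f(s+2) ≥ c e^s` near `-∞`. Hence the Laplace transform
`M(w) (1 - e^{-2(w+θ)})` of the nonnegative function `g(s) - e^{-2θ} g(s+2)` cannot be continued
analytically to a disc about `-θ` of radius larger than `1` (compare its even derivatives at a
point near `-θ` with Cauchy's estimates). But it equals `2^{1/3} (1 - e^{-2(w+θ)}) /
Ai(2^{-1/3} w)`, and `Ai(2^{-1/3} w)` has no zero with `|w + θ| ≤ 1.01` except `w = -θ`.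
-/

namespace Pool.Agent.Results.MP_b46d52_pr.NotLogHM

open MeasureTheory Pool.Agent.V1146.Chern

/-- **Q1 is false**: Chernoff's factor function `g` does not belong to `log(HM_∞)`. -/
theorem result (Ai : ℂ → ℂ) (hAi : IsAiry Ai) (g : ℝ → ℝ) (hc : Continuous g)
    (hpos : ∀ s, 0 < g s) (hint : Integrable g)
    (hFT : ∀ l : ℝ, ∫ s : ℝ, Complex.exp (Complex.I * l * s) * g s =
      (((2 : ℝ) ^ (1 / 3 : ℝ) : ℝ) : ℂ) /
        Ai (Complex.I * (((2 : ℝ) ^ (-(1 / 3) : ℝ) : ℝ) : ℂ) * l)) :
    ¬ LogHM g :=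
  main hAi hc hpos hint hFT

end Pool.Agent.Results.MP_b46d52_pr.NotLogHM
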